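import Pool.Agent.X63.SCRVG

/-!
A closed rectangle-of-influence graph which is not a south corner rectangle visibility graph.
-/

set_option autoImplicit false

namespace Pool.Agent.Results.MP_dc6ec3_co.ClosedRigNotScrvg

open Pool.Agent.X63

/-- There is a finite graph that is a closed RIG but not an SCRVG. -/
theorem result : ∃ (V : Type) (_ : Fintype V) (G : SimpleGraph V),
    IsClosedRIG G ∧ ¬ IsSCRVG G :=
  ⟨Bool × Fin 11, inferInstance, JC.J, SC.closed_rig, SC.not_scrvg⟩

end Pool.Agent.Results.MP_dc6ec3_co.ClosedRigNotScrvg
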